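import Mathlib
import Pool.Agent.H713R5.QJ.Main
import Pool.Agent.H713R5.QJ.Core7

/-! The distance of a polynomial to the shift locus, part 1: rigid discs with escaping critical
points only, and the local inequality for the area of the sublevel sets of Green's function. -/

set_option autoImplicit false

open Topology Filter Metric Set Polynomial MeasureTheory
open Pool.Agent.H713R3.ZA Pool.Agent.H713R5.QJ

namespace Pool.Agent.X167.Sh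

/-- the orbit of `u` escapes -/
def Esc (f : ℂ → ℂ) (u : ℂ) : Prop := Tendsto (fun k : ℕ => ‖f^[k] u‖) atTop atTop

/-- rigid discs, with escaping critical points only -/
structure GDE (a : ℂ) (n M : ℕ) (B R₃ : ℝ) (ψ : PE n × ℂ → ℂ) (Ee : Finset (Fin n))
    (F0 : Fin n → ℂ) (ρ : ℝ) (γ : ℂ → PE n) : Prop where
  hρ : 0 < ρ
  γd : DifferentiableOn ℂ γ (ball 0 ρ)
  γB : ∀ t ∈ ball (0 : ℂ) ρ, γ t ∈ ball (0 : PE n) B
  F1 : ∀ i ∈ Ee, R₃ < ‖F0 i‖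
  esc : ∀ t ∈ ball (0 : ℂ) ρ, ∀ i ∈ Ee, (fx a n (γ t))^[M] (γ t (some i)) = ψ (γ t, F0 i)
  cen : ∀ t ∈ ball (0 : ℂ) ρ, (fam a n (γ t)).coeff n = (fam a n (γ 0)).coeff n
  bad : ∀ l : Fin n, l ∉ Ee → ¬ Esc (fx a n (γ 0)) (γ 0 (some l))

theorem GDE.mono {a : ℂ} {n M : ℕ} {B R₃ : ℝ} {ψ : PE n × ℂ → ℂ} {Ee : Finset (Fin n)}
    {F0 : Fin n → ℂ} {ρ ρ' : ℝ} {γ : ℂ → PE n}
    (h : GDE a n M B R₃ ψ Ee F0 ρ γ) (h0 : 0 < ρ') (h1 : ρ' ≤ ρ) :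
    GDE a n M B R₃ ψ Ee F0 ρ' γ := by
  have hs : ball (0 : ℂ) ρ' ⊆ ball 0 ρ := ball_subset_ball h1
  exact
    { hρ := h0
      γd := h.γd.mono hs
      γB := fun t ht => h.γB t (hs ht)
      F1 := h.F1
      esc := fun t ht => h.esc t (hs ht)
      cen := fun t ht => h.cen t (hs ht)
      bad := h.bad }

theorem qq_fiber {a : ℂ} (ha : a ≠ 0) (n : ℕ) (c : ℂ) : {w : ℂ | QQ a n w = c}.Finite := by
  have h0 : (C a * X ^ (n + 1) - C c : ℂ[X]) ≠ 0 := by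
    intro h
    have h1 := congrArg (fun q : ℂ[X] => q.coeff (n + 1)) h
    simp only [coeff_sub, coeff_C_mul, coeff_X_pow, if_true, coeff_C_succ, coeff_zero] at h1
    apply ha
    simpa using h1
  refine ((C a * X ^ (n + 1) - C c : ℂ[X]).rootSet_finite ℂ).subset ?_
  intro w hw
  rw [mem_rootSet]
  refine ⟨h0, ?_⟩
  have hw' : a * w ^ (n + 1) = c := hw
  simp [hw']

theorem qq_iter_fiber {a : ℂ} (ha : a ≠ 0) (n : ℕ) (m : ℕ) (c : ℂ) :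
    {w : ℂ | (QQ a n)^[m] w = c}.Finite := by
  induction m generalizing c with
  | zero =>
    refine (finite_singleton c).subset ?_
    intro w hw
    exact hw
  | succ m ih =>
    have : {w : ℂ | (QQ a n)^[m + 1] w = c} ⊆
        ⋃ v ∈ {v : ℂ | QQ a n v = c}, {w : ℂ | (QQ a n)^[m] w = v} := by
      intro w hw
      have hw' : (QQ a n)^[m + 1] w = c := hw
      rw [Function.iterate_succ_apply'] at hw'
      exact mem_biUnion (x := (QQ a n)^[m] w) hw' rfl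
    exact ((qq_fiber ha n c).biUnion fun v _ => ih v).subset this

/-- escaping critical points enter the target region at rigid points -/
theorem cre {a : ℂ} {n M : ℕ} (N : ℕ) {B R C₁ R₁ R₃ R₇ ρ : ℝ} {ψ φ : PE n × ℂ → ℂ}
    {Ee : Finset (Fin n)} {F0 : Fin n → ℂ} {γ : ℂ → PE n} (ha : a ≠ 0)
    (hb : BO a n B R C₁ R₁ R₃ ψ φ) (hR7 : R₃ + C₁ ≤ R₇) (hg : GDE a n M B R₃ ψ Ee F0 ρ γ) :
    ∃ Bd : Set ℂ, Bd.Finite ∧ ∀ t ∈ ball (0 : ℂ) ρ, ∀ i ∈ Ee, ∀ j ≤ N,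
      ∀ w ∈ UF n R₃ R₇ φ (γ 0), (fx a n (γ t))^[j] (γ t (some i)) = ψ (γ t, φ (γ 0, w)) →
        w ∈ Bd := by
  have h0 : (0 : ℂ) ∈ ball (0 : ℂ) ρ := mem_ball_self hg.hρ
  have hR13 : R₁ ≤ R₃ := by have := hb.hC; have := hb.hR₃; linarith
  have hR17 : R₁ ≤ R₇ := by have := hb.hC; linarith
  set Vl : Set ℂ := ⋃ i ∈ (Ee : Set (Fin n)),
    ((⋃ m ∈ (Finset.range (M + 1) : Set ℕ), {v : ℂ | (QQ a n)^[m] v = F0 i}) ∪
      ⋃ m ∈ (Finset.range (N + 1) : Set ℕ), {(QQ a n)^[m] (F0 i)}) with hVl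
  have hVf : Vl.Finite := by
    refine (Finset.finite_toSet Ee).biUnion fun i _ => ?_
    exact ((Finset.finite_toSet _).biUnion fun m _ => qq_iter_fiber ha n m _).union
      ((Finset.finite_toSet _).biUnion fun m _ => finite_singleton _)
  have hinj : InjOn (fun w => φ (γ 0, w)) {w : ℂ | R₃ < ‖w‖} := by
    intro w hw w' hw' h
    have e1 := hb.ψφ (γ 0) (hg.γB 0 h0) w hw
    have e2 := hb.ψφ (γ 0) (hg.γB 0 h0) w' hw'
    simp only at h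
    rw [← e1, ← e2, h]
  refine ⟨{w : ℂ | R₃ < ‖w‖ ∧ φ (γ 0, w) ∈ Vl}, ?_, ?_⟩
  · refine Set.Finite.of_finite_image (f := fun w => φ (γ 0, w)) (hVf.subset ?_) ?_
    · rintro _ ⟨w, hw, rfl⟩
      exact hw.2
    · exact hinj.mono fun w hw => hw.1
  · intro t ht i hi j hj w hw he
    refine ⟨hw.1, ?_⟩
    have hw2 : R₁ < ‖φ (γ 0, w)‖ := lt_of_le_of_lt hR17 hw.2
    have hF : R₁ < ‖F0 i‖ := lt_of_le_of_lt hR13 (hg.F1 i hi)
    have hesc := hg.esc t ht i hi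
    refine mem_biUnion (x := i) hi ?_
    rcases le_or_gt j M with hjM | hjM
    · left
      refine mem_biUnion (x := M - j) (by simp) ?_
      have e1 : (fx a n (γ t))^[M] (γ t (some i)) =
          (fx a n (γ t))^[M - j] ((fx a n (γ t))^[j] (γ t (some i))) := by
        rw [← Function.iterate_add_apply]
        congr 1
        omega
      rw [e1, he, hb.fe_iter (hg.γB t ht) hw2] at hesc
      exact hb.ψi (γ t) (hg.γB t ht) (hb.QQ_iter hw2 _) hF hesc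
    · right
      refine mem_biUnion (x := j - M) (by simp; omega) ?_
      have e1 : (fx a n (γ t))^[j] (γ t (some i)) =
          (fx a n (γ t))^[j - M] ((fx a n (γ t))^[M] (γ t (some i))) := by
        rw [← Function.iterate_add_apply]
        congr 1
        omega
      rw [e1, hesc, hb.fe_iter (hg.γB t ht) hF] at he
      exact (hb.ψi (γ t) (hg.γB t ht) (hb.QQ_iter hF _) hw2 he).symm

/-- critical points which do not escape stay outside of the target region up to time `N`, for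
nearby maps -/
theorem crb {a : ℂ} {n M : ℕ} (N : ℕ) {B R C₁ R₁ R₃ : ℝ} (R₇ : ℝ) {ρ : ℝ} {ψ φ : PE n × ℂ → ℂ}
    {Ee : Finset (Fin n)} {F0 : Fin n → ℂ} {γ : ℂ → PE n}
    (hb : BO a n B R C₁ R₁ R₃ ψ φ) (hgd : GDE a n M B R₃ ψ Ee F0 ρ γ) :
    ∃ ρ' : ℝ, 0 < ρ' ∧ ρ' ≤ ρ ∧ ∀ t ∈ ball (0 : ℂ) ρ', ∀ l : Fin n, l ∉ Ee → ∀ j ≤ N,
      (fx a n (γ t))^[j] (γ t (some l)) ∉ UF n R₃ R₇ φ (γ t) := by
  have h0b : (0 : ℂ) ∈ ball (0 : ℂ) ρ := mem_ball_self hgd.hρ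
  have hγc : ContinuousAt γ 0 := hgd.γd.continuousOn.continuousAt (isOpen_ball.mem_nhds h0b)
  have hx0 : γ 0 ∈ ball (0 : PE n) B := hgd.γB 0 h0b
  have hco : ∀ k : Option (Fin n), ContinuousAt (fun t => γ t k) 0 := fun k =>
    (continuous_apply k).continuousAt.comp hγc
  have key : ∀ l : Fin n, l ∉ Ee → ∀ j : ℕ, ∀ᶠ t in 𝓝 (0 : ℂ),
      (fx a n (γ t))^[j] (γ t (some l)) ∉ UF n R₃ R₇ φ (γ t) := by
    intro l hl2 j
    have hbad := hgd.bad l hl2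
    have hy : ContinuousAt (fun t => (fx a n (γ t))^[j] (γ t (some l))) 0 :=
      ContinuousAt.comp (f := fun t => (γ t, γ t (some l)))
        (g := fun p : PE n × ℂ => (fx a n p.1)^[j] p.2)
        (contDiff_fx a n j).continuous.continuousAt (hγc.prodMk (hco _))
    have hfar : ‖(fx a n (γ 0))^[j] (γ 0 (some l))‖ < R₃ := by
      by_contra hlt
      apply hbad
      apply esc_of_large hb hx0 (k := j)
      have h5 := hb.hC
      have h6 := hb.hR₁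
      have h7 := hb.hR₃
      have h8 := not_lt.1 hlt
      linarith
    have ev1 : ∀ᶠ t in 𝓝 (0 : ℂ), ‖(fx a n (γ t))^[j] (γ t (some l))‖ < R₃ :=
      hy.norm.eventually (gt_mem_nhds hfar)
    filter_upwards [ev1] with t ht1 hU
    exact absurd hU.1 (not_lt.2 ht1.le)
  have all : ∀ᶠ t in 𝓝 (0 : ℂ), ∀ l : Fin n, ∀ j ∈ Finset.range (N + 1), l ∉ Ee →
      (fx a n (γ t))^[j] (γ t (some l)) ∉ UF n R₃ R₇ φ (γ t) := by
    rw [Filter.eventually_all]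
    intro l
    rw [Filter.eventually_all_finset]
    intro j _
    by_cases hl2 : l ∈ Ee
    · exact Filter.Eventually.of_forall fun t h => absurd hl2 h
    filter_upwards [key l hl2 j] with t ht _
    exact ht
  obtain ⟨ε, hε, h⟩ := Metric.eventually_nhds_iff_ball.1 all
  refine ⟨min ε ρ, lt_min hε hgd.hρ, min_le_right _ _, ?_⟩
  intro t ht l hl2 j hj
  exact h t (ball_subset_ball (min_le_left _ _) ht) l j (Finset.mem_range.2 (by omega)) hl2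

/-- the conjugacy near infinity gives rigid data -/
theorem rl (H : HH) {a : ℂ} {n M : ℕ} (N : ℕ) {B R C₁ R₁ R₃ R₇ ρ : ℝ} {ψ φ : PE n × ℂ → ℂ}
    {Ee : Finset (Fin n)} {F0 : Fin n → ℂ} {γ : ℂ → PE n} (ha : a ≠ 0) (hn : 1 ≤ n)
    (hBO : BO a n B R C₁ R₁ R₃ ψ φ) (hR7 : R₃ + C₁ ≤ R₇) (hGD : GDE a n M B R₃ ψ Ee F0 ρ γ) :
    ∃ (ρ' : ℝ) (H : ℂ → ℂ → ℂ) (Bd : Set ℂ), 0 < ρ' ∧ ρ' ≤ ρ ∧
      RDL (n + 1) (fun t => wv a n (γ t)) ρ' (UF n R₃ R₇ φ (γ 0)) H Bd N ∧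
      (∀ t ∈ ball (0 : ℂ) ρ', ∀ z ∈ UF n R₃ R₇ φ (γ 0), H t z ∈ UF n R₃ R₇ φ (γ t)) ∧
      ∀ t ∈ ball (0 : ℂ) ρ', ∀ z : ℂ, R₇ + C₁ < ‖z‖ → z ∈ UF n R₃ R₇ φ (γ 0) ∧
        H t z = ψ (γ t, φ (γ 0, z)) := by
  classical
  obtain ⟨d1, d2, d3, d4, d5, d6, d7, d8, d9, d10⟩ := H.dic a n ha hn
  have hPF := H.rf a n B R C₁ R₁ R₃ R₇ ρ ψ φ γ ha hn hBO hR7 hGD.hρ hGD.γd hGD.γB
  obtain ⟨ρ', hρ'0, hρ'ρ, hbad⟩ := crb N R₇ hBO hGD
  have hs1 : ball (0 : ℂ) ρ' ⊆ ball 0 ρ := ball_subset_ball hρ'ρ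
  have hGD' := hGD.mono hρ'0 hρ'ρ
  have hPF' := RL_PCE_mono hPF hρ'ρ
  obtain ⟨Be, hBe, hBe'⟩ := cre N ha hBO hR7 hGD'
  have hOv : ∀ c w : ℂ, Pool.Agent.H713R4.RB.Over (c, 1) w ↔ c = w := fun c w => by
    unfold Pool.Agent.H713R4.RB.Over
    simp
  refine ⟨ρ', fun t z => ψ (γ t, φ (γ 0, z)), Be, hρ'0, hρ'ρ, ?_, ?_, ?_⟩
  · refine
      { hρ := hρ'0
        γd := d10.comp_differentiableOn hGD'.γd
        ndg := fun t _ => d5 (γ t)
        Uo := hPF'.Uo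
        Hd := hPF'.Hd
        H0 := hPF'.H0
        Hi := hPF'.Hi
        inv := ?_
        conj := ?_
        Bf := hBe
        crit := ?_
        inf := ?_ }
    · intro z hz
      refine ⟨fx a n (γ 0) z, hPF'.inv z hz, ?_⟩
      rw [d1, hOv]
    · intro t ht z hz w hw
      rw [d1, hOv] at hw
      rw [d1, hOv, ← hw]
      exact hPF'.conj t ht z hz
    · intro t ht p _ hcr j hj1 hjN w hw hov
      by_cases hp2 : p.2 = 0
      · exact absurd (d4 (γ t) j p hp2) hov.1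
      · obtain ⟨l, hl⟩ := d7 (γ t) p hcr hp2
        have hp : p = (p.2 * γ t (some l), p.2) := by
          ext
          · rw [hl, mul_comm]
          · rfl
        rw [hp] at hov
        have hj := (d8 (γ t) j (γ t (some l)) (ψ (γ t, φ (γ 0, w))) p.2 hp2).1 hov
        by_cases hlEe : l ∈ Ee
        · exact hBe' t ht l hlEe j hjN w hw hj
        · exfalso
          refine hbad t ht l hlEe j hjN ?_
          rw [hj]
          exact hPF'.img t ht w hw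
    · intro t ht w _ hov
      exact absurd (d4 (γ t) N (1, 0) rfl) hov.1
  · exact fun t ht z hz => hPF'.img t ht z hz
  · intro t ht z hz
    have h1 : z ∈ UF n R₃ R₇ φ (γ 0) := by
      have h2 : R₃ < ‖z‖ := by linarith [hBO.hC]
      refine ⟨h2, ?_⟩
      have h3 := hBO.φc (γ 0) (hGD'.γB 0 (mem_ball_self hρ'0)) z h2
      have h4 := norm_sub_norm_le z (z - φ (γ 0, z))
      rw [sub_sub_cancel] at h4
      rw [norm_sub_rev] at h3
      linarith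
    exact ⟨h1, rfl⟩

/-- the points whose orbits are not in the far region at time `N` -/
def BE (a : ℂ) (n : ℕ) (R₃ R₇ : ℝ) (φ : PE n × ℂ → ℂ) (N : ℕ) (x : PE n) : Set ℂ :=
  {z | (fx a n x)^[N] z ∉ UF n R₃ R₇ φ x}

/-- The local inequality for the level `N` area. -/
theorem loc (H : HH) {a : ℂ} {n M : ℕ} (N : ℕ) {B R C₁ R₁ R₃ R₇ ρ R₄ R₅ rg c₀ : ℝ} {v : ℂ}
    {ψ φ : PE n × ℂ → ℂ} {Ee : Finset (Fin n)} {F0 : Fin n → ℂ} {γ : ℂ → PE n} (ha : a ≠ 0)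
    (hn : 1 ≤ n) (hBO : BO a n B R C₁ R₁ R₃ ψ φ) (hR7 : R₃ + C₁ ≤ R₇)
    (hGD : GDE a n M B R₃ ψ Ee F0 ρ γ)
    (hR4 : R₇ + 3 * C₁ < R₄) (hR45 : R₄ < R₅) (hc₀ : 0 < c₀)
    (hball : ball v rg ⊆ {z | R₄ < ‖z‖ ∧ ‖z‖ < R₅})
    (hGain : ∀ x ∈ ball (0 : PE n) B, ∀ y ∈ ball (0 : PE n) B,
      (fam a n x).coeff n = (fam a n y).coeff n →
      Pool.Agent.H713R4.RB.Gain (n + 1) R₄ R₅ v v rg c₀ (wv a n x) (wv a n y)) :
    ∃ r₀ : ℝ, 0 < r₀ ∧ r₀ ≤ ρ ∧ ∀ r : ℝ, 0 < r → r < r₀ → ∀ η : ℝ, 0 < η →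
      ∀ q : ℝ → ℝ, Continuous q → ∃ θ : ℝ,
        (volume (BE a n R₃ R₇ φ N (γ (circleMap 0 r θ)))).toReal + q θ <
          (volume (BE a n R₃ R₇ φ N (γ 0))).toReal + η + (2 * Real.pi)⁻¹ *
            ∫ θ in (0 : ℝ)..(2 * Real.pi),
              (q θ - c₀ * Pool.Agent.H713R3.ZA.Dl a n (γ 0) (γ (circleMap 0 r θ))) := by
  obtain ⟨ρ', HH', Bd, hρ', hρ'ρ, hRDL, hHim, hUfar⟩ := rl H N ha hn hBO hR7 hGD
  have hsubB : ball (0 : ℂ) ρ' ⊆ ball (0 : ℂ) ρ := ball_subset_ball hρ'ρ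
  set U := UF n R₃ R₇ φ (γ 0) with hU
  obtain ⟨hFAR, hfarsub⟩ := H.farp H.dic H.asyp a n N B R C₁ R₁ R₃ R₇ ρ' ψ φ γ U HH' Bd ha hn hBO
    hR7 hRDL (fun t ht => hGD.γB t (hsubB ht)) (fun t ht => hGD.cen t (hsubB ht)) hUfar
  obtain ⟨D1, D2, D3, D4, D5, D6, D7, D8, D9, D10⟩ := H.dic a n ha hn
  refine ⟨ρ', hρ', hρ'ρ, ?_⟩
  intro r hr hrρ η hη q hq
  have hC := hBO.hC
  have hR4pos : 0 < R₄ := by
    have h1 := hBO.hR
    have h2 := hBO.hR₁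
    have h3 := hBO.hR₃
    linarith
  have h0 : (0 : ℂ) ∈ ball (0 : ℂ) ρ' := mem_ball_self hρ'
  have hfar0 : {z : ℂ | R₄ < ‖z‖} ⊆ Pool.Agent.H713R4.RB.WN (n + 1) (wv a n (γ 0)) U N := by
    intro z hz
    have hz' : R₄ < ‖z‖ := hz
    exact hFAR.mem z (by linarith)
  have h1 : {z : ℂ | R₄ < ‖z‖} ∪ ball v rg ∪ ball v rg ⊆
      Pool.Agent.H713R4.RB.WN (n + 1) (wv a n (γ 0)) U N := by
    rintro z ((hz | hz) | hz)
    · exact hfar0 hz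
    · exact hfar0 (hball hz).1
    · exact hfar0 (hball hz).1
  have h2 : ∀ t ∈ ball (0 : ℂ) ρ', {z : ℂ | R₄ < ‖z‖} ⊆
      Pool.Agent.H713R4.RB.WN (n + 1) (wv a n (γ t)) (HH' t '' U) N := by
    intro t ht z hz
    have hz' : R₄ < ‖z‖ := hz
    apply hfarsub t ht
    show R₇ + 3 * C₁ < ‖z‖
    linarith
  have h3 : ball v rg ∪ ball v rg ⊆ ball (0 : ℂ) R₅ := by
    rintro z (hz | hz)
    · rw [mem_ball_zero_iff]; exact (hball hz).2
    · rw [mem_ball_zero_iff]; exact (hball hz).2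
  have h4 : ∀ t ∈ ball (0 : ℂ) ρ', Pool.Agent.H713R4.RB.Gain (n + 1) R₄ R₅ v v rg c₀
      (wv a n (γ 0)) (wv a n (γ t)) := fun t ht =>
    hGain (γ 0) (hGD.γB 0 (hsubB h0)) (γ t) (hGD.γB t (hsubB ht)) (hGD.cen t (hsubB ht)).symm
  obtain ⟨θ, hθ⟩ := H.stepl H.area H.avg2 H.rbad H.motl H.fulll H.root H.pro H.wn (n + 1)
    (fun t => wv a n (γ t)) ρ' U HH' Bd N R₄ R₅ (R₇ + C₁) HH' v v rg c₀ (by omega) hRDL hR4pos hR45 h1
    h2 h3 hFAR hc₀ h4 r hr hrρ η hη q hq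
  refine ⟨θ, ?_⟩
  set t := circleMap 0 r θ with ht
  have htρ : t ∈ ball (0 : ℂ) ρ' := by
    rw [mem_ball_zero_iff, ht, norm_circleMap_zero, abs_of_pos hr]
    exact hrρ
  have hsub : BE a n R₃ R₇ φ N (γ t) ⊆
      (Pool.Agent.H713R4.RB.WN (n + 1) (wv a n (γ t)) (HH' t '' U) N)ᶜ := by
    intro z hz hz2
    rw [D6] at hz2
    obtain ⟨w, hw, hwz⟩ := hz2
    apply hz
    rw [← hwz]
    exact hHim t htρ w hw
  have hfinm : volume (Pool.Agent.H713R4.RB.WN (n + 1) (wv a n (γ t)) (HH' t '' U) N)ᶜ ≠ ⊤ := by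
    have hs : (Pool.Agent.H713R4.RB.WN (n + 1) (wv a n (γ t)) (HH' t '' U) N)ᶜ ⊆
        closedBall (0 : ℂ) R₄ := by
      intro z hz
      rw [mem_closedBall_zero_iff]
      by_contra hcon
      exact hz (h2 t htρ (not_le.1 hcon))
    exact ((measure_mono hs).trans_lt measure_closedBall_lt_top).ne
  have hle : (volume (BE a n R₃ R₇ φ N (γ t))).toReal ≤
      (volume (Pool.Agent.H713R4.RB.WN (n + 1) (wv a n (γ t)) (HH' t '' U) N)ᶜ).toReal :=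
    ENNReal.toReal_mono hfinm (measure_mono hsub)
  have heq : (Pool.Agent.H713R4.RB.WN (n + 1) (wv a n (γ 0)) U N)ᶜ =
      BE a n R₃ R₇ φ N (γ 0) := by
    rw [D6]
    rfl
  simp only [D9] at hθ
  rw [heq] at hθ
  linarith

end Pool.Agent.X167.Sh
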