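import Mathlib
import Pool.Agent.X167.Sh.A

/-! The distance of a polynomial to the shift locus, part 2: level sets and the core. -/

set_option autoImplicit false

open Topology Filter Metric Set Polynomial MeasureTheory
open Pool.Agent.H713R3.ZA Pool.Agent.H713R5.QJ

namespace Pool.Agent.X167.Sh

section
variable {a : ℂ} {n : ℕ} {B R C₁ R₁ R₃ R₇ : ℝ} {ψ φ : PE n × ℂ → ℂ} {x : PE n}

theorem BE_sub (hb : BO a n B R C₁ R₁ R₃ ψ φ) (hR₇ : R₃ + C₁ ≤ R₇) (hx : x ∈ ball (0 : PE n) B)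
    (N : ℕ) : BE a n R₃ R₇ φ N x ⊆ closedBall 0 (R₇ + C₁) := by
  intro z hz
  rw [mem_closedBall_zero_iff]
  by_contra hlt
  rw [not_le] at hlt
  apply hz
  have h5 := hb.hC
  have h6 := hb.hR₁
  have h7 := hb.hR₃
  exact NINFaux.mem_UF hb hR₇ hx (hlt.trans_le (NINFaux.ninf_iter_large hb hx (by linarith) N))

theorem BE_fin (hb : BO a n B R C₁ R₁ R₃ ψ φ) (hR₇ : R₃ + C₁ ≤ R₇) (hx : x ∈ ball (0 : PE n) B)
    (N : ℕ) : volume (BE a n R₃ R₇ φ N x) ≠ ⊤ :=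
  ((measure_mono (BE_sub hb hR₇ hx N)).trans_lt measure_closedBall_lt_top).ne

theorem notEsc_sub (hb : BO a n B R C₁ R₁ R₃ ψ φ) (hx : x ∈ ball (0 : PE n) B) (N : ℕ) :
    {z | ¬ Esc (fx a n x) z} ⊆ BE a n R₃ R₇ φ N x := by
  intro z hz hmem
  apply hz
  have h5 := hb.hC
  have h6 := hb.hR₁
  have h7 := hb.hR₃
  have h8 := hmem.1
  exact esc_of_large hb hx (k := N) (by linarith)

/-- the set of pairs in the far region at time `N` is open -/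
theorem open_far (hb : BO a n B R C₁ R₁ R₃ ψ φ) (N : ℕ) :
    IsOpen {p : PE n × ℂ | p.1 ∈ ball (0 : PE n) B ∧ (fx a n p.1)^[N] p.2 ∈ UF n R₃ R₇ φ p.1} := by
  have hc : Continuous (fun p : PE n × ℂ => (p.1, (fx a n p.1)^[N] p.2)) :=
    continuous_fst.prodMk (contDiff_fx a n N).continuous
  have h1 : IsOpen (ball (0 : PE n) B ×ˢ {z : ℂ | R₃ < ‖z‖}) :=
    isOpen_ball.prod (isOpen_lt continuous_const continuous_norm)
  have h2 : IsOpen ((ball (0 : PE n) B ×ˢ {z : ℂ | R₃ < ‖z‖}) ∩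
      (fun p => ‖φ p‖) ⁻¹' (Ioi R₇)) :=
    hb.φd.continuousOn.norm.isOpen_inter_preimage h1 isOpen_Ioi
  have h3 := h2.preimage hc
  have h4 : {p : PE n × ℂ | p.1 ∈ ball (0 : PE n) B ∧ (fx a n p.1)^[N] p.2 ∈ UF n R₃ R₇ φ p.1} =
      (fun p : PE n × ℂ => (p.1, (fx a n p.1)^[N] p.2)) ⁻¹'
        ((ball (0 : PE n) B ×ˢ {z : ℂ | R₃ < ‖z‖}) ∩ (fun p => ‖φ p‖) ⁻¹' (Ioi R₇)) := by
    ext p
    constructor
    · rintro ⟨e1, e2, e3⟩
      exact ⟨⟨e1, e2⟩, e3⟩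
    · rintro ⟨⟨e1, e2⟩, e3⟩
      exact ⟨e1, e2, e3⟩
  rw [h4]
  exact h3

theorem BE_meas (hb : BO a n B R C₁ R₁ R₃ ψ φ) (hx : x ∈ ball (0 : PE n) B) (N : ℕ) :
    MeasurableSet (BE a n R₃ R₇ φ N x) := by
  have h1 : IsOpen {z : ℂ | (fx a n x)^[N] z ∈ UF n R₃ R₇ φ x} := by
    have h2 := (open_far (R₇ := R₇) hb N).preimage (Continuous.prodMk_right x)
    have h3 : {z : ℂ | (fx a n x)^[N] z ∈ UF n R₃ R₇ φ x} =
        Prod.mk x ⁻¹' {p : PE n × ℂ | p.1 ∈ ball (0 : PE n) B ∧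
          (fx a n p.1)^[N] p.2 ∈ UF n R₃ R₇ φ p.1} := by
      ext z
      constructor
      · intro h; exact ⟨hx, h⟩
      · rintro ⟨-, h⟩; exact h
    rw [h3]
    exact h2
  have h4 : BE a n R₃ R₇ φ N x = {z : ℂ | (fx a n x)^[N] z ∈ UF n R₃ R₇ φ x}ᶜ := rfl
  rw [h4]
  exact h1.measurableSet.compl

/-- the level `N` area tends to the area of the filled Julia set -/
theorem BE_lim (hb : BO a n B R C₁ R₁ R₃ ψ φ) (hR₇ : R₃ + C₁ ≤ R₇) (hx : x ∈ ball (0 : PE n) B)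
    {η : ℝ} (hη : 0 < η) : ∃ N₀ : ℕ, ∀ N ≥ N₀, (volume (BE a n R₃ R₇ φ N x)).toReal ≤
      (volume {z | ¬ Esc (fx a n x) z}).toReal + η := by
  have hfin : ∀ S : Set ℂ, S ⊆ closedBall 0 (R₇ + C₁) → volume S ≠ ⊤ := fun S hS =>
    ((measure_mono hS).trans_lt measure_closedBall_lt_top).ne
  set T : ℕ → Set ℂ := fun N => ⋃ K : ℕ, BE a n R₃ R₇ φ (N + K) x with hT
  have hTm : ∀ N, MeasurableSet (T N) := fun N => MeasurableSet.iUnion fun K => BE_meas hb hx _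
  have hTb : ∀ N, T N ⊆ closedBall 0 (R₇ + C₁) := fun N => iUnion_subset fun K => BE_sub hb hR₇ hx _
  have hTa : Antitone T := by
    intro N N' h z hz
    obtain ⟨K, hK'⟩ := mem_iUnion.1 hz
    refine mem_iUnion.2 ⟨N' - N + K, ?_⟩
    have : N + (N' - N + K) = N' + K := by omega
    rw [this]
    exact hK'
  have hTi : (⋂ N, T N) ⊆ {z | ¬ Esc (fx a n x) z} := by
    intro z hz hg
    obtain ⟨N₀, hN₀⟩ := eventually_atTop.1 (hg.eventually_gt_atTop (R₇ + C₁))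
    obtain ⟨K, hK'⟩ := mem_iUnion.1 (mem_iInter.1 hz N₀)
    exact hK' (NINFaux.mem_UF hb hR₇ hx (hN₀ (N₀ + K) (Nat.le_add_right _ _)))
  have hlim : Tendsto (fun N => volume (T N)) atTop (𝓝 (volume (⋂ N, T N))) :=
    tendsto_measure_iInter_atTop (fun N => (hTm N).nullMeasurableSet) hTa ⟨0, hfin _ (hTb 0)⟩
  have hbadfin : volume {z | ¬ Esc (fx a n x) z} ≠ ⊤ :=
    hfin _ ((notEsc_sub (R₇ := R₇) hb hx 0).trans (BE_sub hb hR₇ hx 0))
  have hlt : volume (⋂ N, T N) < volume {z | ¬ Esc (fx a n x) z} + ENNReal.ofReal η := by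
    refine lt_of_le_of_lt (measure_mono hTi) ?_
    exact ENNReal.lt_add_right hbadfin (by simpa using hη)
  obtain ⟨N₀, hN₀⟩ := eventually_atTop.1 (hlim.eventually (gt_mem_nhds hlt))
  refine ⟨N₀, fun N hN => ?_⟩
  have h1 : volume (BE a n R₃ R₇ φ N x) ≤ volume (T N) :=
    measure_mono fun z hz => mem_iUnion.2 ⟨0, hz⟩
  have h2 := h1.trans (hN₀ N hN).le
  have h3 := ENNReal.toReal_mono (ENNReal.add_ne_top.2 ⟨hbadfin, ENNReal.ofReal_ne_top⟩) h2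
  rwa [ENNReal.toReal_add hbadfin ENNReal.ofReal_ne_top, ENNReal.toReal_ofReal hη.le] at h3

/-- the area of the filled Julia set is upper semicontinuous -/
theorem usc (hb : BO a n B R C₁ R₁ R₃ ψ φ) (hR₇ : R₃ + C₁ ≤ R₇) {x₁ : PE n}
    (hx : x₁ ∈ ball (0 : PE n) B) {η : ℝ} (hη : 0 < η) :
    ∃ σ : ℝ, 0 < σ ∧ ∀ x ∈ ball x₁ σ, volume {z | ¬ Esc (fx a n x) z} ≤
      volume {z | ¬ Esc (fx a n x₁) z} + ENNReal.ofReal η := by
  obtain ⟨N, hN⟩ := BE_lim (R₇ := R₇) hb hR₇ hx (half_pos hη)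
  have hN := hN N le_rfl
  have hbadfin : volume {z | ¬ Esc (fx a n x₁) z} ≠ ⊤ :=
    ((measure_mono ((notEsc_sub (R₇ := R₇) hb hx 0).trans (BE_sub hb hR₇ hx 0))).trans_lt
      measure_closedBall_lt_top).ne
  have hBfin := BE_fin (R₇ := R₇) hb hR₇ hx N
  have hvol : volume (BE a n R₃ R₇ φ N x₁) <
      volume {z | ¬ Esc (fx a n x₁) z} + ENNReal.ofReal η := by
    rw [← ENNReal.ofReal_toReal hBfin, ← ENNReal.ofReal_toReal hbadfin,
      ← ENNReal.ofReal_add ENNReal.toReal_nonneg hη.le]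
    apply (ENNReal.ofReal_lt_ofReal_iff _).mpr
    · linarith
    · have : 0 ≤ (volume {z | ¬ Esc (fx a n x₁) z}).toReal := ENNReal.toReal_nonneg
      linarith
  obtain ⟨V, hVs, hVo, hVv⟩ := (BE a n R₃ R₇ φ N x₁).exists_isOpen_lt_of_lt _ hvol
  set Kc : Set ℂ := closedBall 0 (R₇ + C₁) \ V with hKc
  have hKcc : IsCompact Kc := (isCompact_closedBall _ _).diff hVo
  have hev : ∀ᶠ x in 𝓝 x₁, ∀ z ∈ Kc, x ∈ ball (0 : PE n) B ∧
      (fx a n x)^[N] z ∈ UF n R₃ R₇ φ x := by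
    have h1 : ∀ z ∈ Kc, ∀ᶠ p : PE n × ℂ in 𝓝 (x₁, z),
        p.1 ∈ ball (0 : PE n) B ∧ (fx a n p.1)^[N] p.2 ∈ UF n R₃ R₇ φ p.1 := by
      intro z hz
      apply (open_far (R₇ := R₇) hb N).mem_nhds
      refine ⟨hx, ?_⟩
      by_contra hcon
      exact hz.2 (hVs hcon)
    exact hKcc.eventually_forall_of_forall_eventually h1
  obtain ⟨σ, hσ, h⟩ := Metric.eventually_nhds_iff_ball.1 (hev.and (isOpen_ball.mem_nhds hx))
  refine ⟨σ, hσ, fun x hx' => ?_⟩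
  refine le_trans (measure_mono ?_) hVv.le
  intro z hz
  by_contra hzV
  have hxB := (h x hx').2
  have hzb : z ∈ closedBall (0 : ℂ) (R₇ + C₁) := BE_sub hb hR₇ hxB N (notEsc_sub hb hxB N hz)
  exact notEsc_sub hb hxB N hz ((h x hx').1 z ⟨hzb, hzV⟩).2

end

/-- trivial reference data -/
theorem rfp (n : ℕ) : RFP n (∅ : Finset (Fin n)) id (fun _ => 0) :=
  ⟨by simp, by simp, by simp⟩

theorem US_empty (a : ℂ) (n P : ℕ) (rf : Fin n → Fin n) (r' τ : ℝ) (x : PE n) :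
    US a n P ∅ rf r' τ x = ∅ := by
  ext z
  simp [US]

theorem BE_eq (a : ℂ) (n P : ℕ) (R₃ R₇ : ℝ) (φ : PE n × ℂ → ℂ) (rf : Fin n → Fin n) (r' τ : ℝ)
    (N : ℕ) (x : PE n) : BN a n P R₃ R₇ φ ∅ rf r' τ N x = BE a n R₃ R₇ φ N x := by
  unfold BN BE
  rw [US_empty, union_empty]

theorem core (H : HH) (a : ℂ) (n : ℕ) (B : ℝ) (ha : a ≠ 0) (hn : 1 ≤ n) (hB0 : 0 < B) :
    ∃ c₀ : ℝ, 0 < c₀ ∧ ∀ (x₁ : PE n) (n₀ : ℝ), 0 < n₀ →
      (∀ x : PE n, Pool.Agent.H713R3.ZA.Dl a n x₁ x ≤ n₀ → x ∈ ball (0 : PE n) B) →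
      volume {z : ℂ | ¬ Esc (fx a n x₁) z} < ENNReal.ofReal (c₀ * n₀ / 16) →
      (∃ j : Fin n, ¬ Esc (fx a n x₁) (x₁ (some j))) →
      ∃ x : PE n, Pool.Agent.H713R3.ZA.Dl a n x₁ x < n₀ ∧
        volume {z : ℂ | ¬ Esc (fx a n x) z} < ENNReal.ofReal (c₀ * n₀) ∧
        (∀ i : Fin n, Esc (fx a n x₁) (x₁ (some i)) → Esc (fx a n x) (x (some i))) ∧
        ∃ j : Fin n, ¬ Esc (fx a n x₁) (x₁ (some j)) ∧ Esc (fx a n x) (x (some j)) := by
  classical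
  obtain ⟨R, C₁, R₁, R₃, ψ, φ, hb⟩ := exists_boett H.bsum H.inv ha hn hB0
  have hb1 := hb.hR; have hb2 := hb.hC; have hb3 := hb.hR₁; have hb4 := hb.hR₃
  set R₇ : ℝ := R₃ + C₁ with hR₇
  obtain ⟨R₄, R₅, rg, c₀, v, hR₄, hR₄0, hR₅, hrg, hc₀, hv, hgain⟩ :=
    H.gainp H.dic a n B (R₇ + 3 * C₁) ha hn hB0
  refine ⟨c₀, hc₀, ?_⟩
  rintro x₁ n₀ hn₀ hDB hvol ⟨j₀, hj₀b⟩
  by_contra hno
  push Not at hno
  set Ee : Finset (Fin n) := Finset.univ.filter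
    (fun i => Esc (fx a n x₁) (x₁ (some i))) with hEe
  have hEm : ∀ i, i ∈ Ee ↔ Esc (fx a n x₁) (x₁ (some i)) := by
    intro i; simp [hEe]
  have hj₀ : j₀ ∉ Ee := fun h => hj₀b ((hEm j₀).mp h)
  have hmax : ∀ x : PE n, Dl a n x₁ x < n₀ →
      volume {z : ℂ | ¬ Esc (fx a n x) z} < ENNReal.ofReal (c₀ * n₀) →
      (∀ i ∈ Ee, Esc (fx a n x) (x (some i))) →
      ∀ j, j ∉ Ee → ¬ Esc (fx a n x) (x (some j)) := by
    intro x h1 h2 h3 j hj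
    exact hno x h1 h2 (fun i hi => h3 i ((hEm i).mpr hi)) j (fun h => hj ((hEm j).mpr h))
  set a₀ : ℝ := c₀ * n₀ / 16 with ha₀
  have ha₀0 : 0 < a₀ := by positivity
  have hx₁B : x₁ ∈ ball (0 : PE n) B := hDB x₁ (by simp [Dl, hn₀.le])
  set m₀ : ℝ := (volume {z : ℂ | ¬ Esc (fx a n x₁) z}).toReal with hm₀
  have hm₀0 : 0 ≤ m₀ := ENNReal.toReal_nonneg
  have hm₀f : volume {z : ℂ | ¬ Esc (fx a n x₁) z} = ENNReal.ofReal m₀ :=
    (ENNReal.ofReal_toReal (hvol.trans_le le_top).ne).symm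
  have hm₀a : m₀ < a₀ := by
    rw [hm₀f] at hvol
    exact (ENNReal.ofReal_lt_ofReal_iff ha₀0).mp hvol
  set η₀ : ℝ := (a₀ - m₀) / 3 with hη₀
  have hη₀0 : 0 < η₀ := by rw [hη₀]; linarith
  -- neighbourhood of good starting points
  set G₁ : Set (PE n) := {x | c₀ / 2 * Dl a n x₁ x < a₀} with hG₁
  have hG₁o : IsOpen G₁ :=
    isOpen_lt (continuous_const.mul (Dl_continuous a n x₁)) continuous_const
  have hx₁G : x₁ ∈ G₁ := by
    have h1 : Dl a n x₁ x₁ = 0 := by simp [Dl]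
    show c₀ / 2 * Dl a n x₁ x₁ < a₀
    rw [h1, mul_zero]; exact ha₀0
  have hG₁D : ∀ x ∈ G₁, Dl a n x₁ x < n₀ := by
    intro x h1
    have h2 : c₀ / 2 * Dl a n x₁ x < c₀ * n₀ / 16 := h1
    by_contra hcon
    push Not at hcon
    nlinarith [mul_pos hc₀ hn₀]
  -- the time `M`
  obtain ⟨M, hM⟩ : ∃ M : ℕ, ∀ i ∈ Ee, R₃ + 2 * C₁ < ‖(fx a n x₁)^[M] (x₁ (some i))‖ := by
    have h1 : ∀ᶠ M : ℕ in atTop, ∀ i ∈ Ee, R₃ + 2 * C₁ < ‖(fx a n x₁)^[M] (x₁ (some i))‖ := by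
      rw [Filter.eventually_all_finset]
      intro i hi
      exact ((hEm i).mp hi).eventually (eventually_gt_atTop _)
    exact h1.exists
  obtain ⟨σ, hσ, husc⟩ := usc hb hR₇.symm.le hx₁B hη₀0
  set W : Set (PE n) := (G₁ ∩ ball x₁ σ) ∩
    ⋂ i ∈ Ee, {x : PE n | R₃ + 2 * C₁ < ‖(fx a n x)^[M] (x (some i))‖} with hW
  have hWo : IsOpen W := by
    apply (hG₁o.inter isOpen_ball).inter
    apply isOpen_biInter_finset
    intro i _
    exact isOpen_lt continuous_const (crit_cont a n M i).norm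
  have hx₁W : x₁ ∈ W := by
    refine ⟨⟨hx₁G, mem_ball_self hσ⟩, ?_⟩
    simp only [mem_iInter]
    exact hM
  have hWM : ∀ x ∈ W, ∀ i ∈ Ee, R₃ + 2 * C₁ < ‖(fx a n x)^[M] (x (some i))‖ := by
    rintro x ⟨-, h⟩ i hi
    exact mem_iInter₂.mp h i hi
  have hWv : ∀ x ∈ W, volume {z : ℂ | ¬ Esc (fx a n x) z} ≤ ENNReal.ofReal (m₀ + η₀) := by
    rintro x ⟨⟨-, h⟩, -⟩
    calc volume {z : ℂ | ¬ Esc (fx a n x) z}
        ≤ volume {z : ℂ | ¬ Esc (fx a n x₁) z} + ENNReal.ofReal η₀ := husc x h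
      _ = ENNReal.ofReal (m₀ + η₀) := by
        rw [hm₀f, ← ENNReal.ofReal_add hm₀0 hη₀0.le]
  have hWB : ∀ x ∈ W, x ∈ ball (0 : PE n) B := fun x hx => hDB x (hG₁D x hx.1.1).le
  -- the domain
  set O : Set (PE n) := OO a n 1 M B R₃ ∅ Ee with hO
  obtain ⟨hOo, -⟩ := H.nud H.ko0 H.ko1 H.ko2 H.ko3 a n 1 M B R₃ ∅ Ee id (fun _ => 0) ha hn one_pos
    (rfp n)
  have hx₁O : x₁ ∈ O := ⟨hx₁B, by simp, fun i hi => by have := hM i hi; linarith⟩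
  set Ω : Set (PE n) := connectedComponentIn O x₁ with hΩ
  have hΩo : IsOpen Ω := hOo.connectedComponentIn
  have hΩc : IsPreconnected Ω := isPreconnected_connectedComponentIn
  have hΩO : Ω ⊆ O := connectedComponentIn_subset O x₁
  have hx₁Ω : x₁ ∈ Ω := mem_connectedComponentIn hx₁O
  -- the field
  have hφdiff : ∀ i ∈ Ee, DifferentiableOn ℂ
      (fun x : PE n => φ (x, (fx a n x)^[M] (x (some i)))) Ω := fun i hi =>
    gdp_phi hb i (fun x hx => (hΩO hx).1) (fun x hx => (hΩO hx).2.2 i hi)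
  set D : Fin n → PE n → (PE n →L[ℂ] ℂ) := fun i x =>
    if i ∈ Ee then fderiv ℂ (fun x : PE n => φ (x, (fx a n x)^[M] (x (some i)))) x
    else if i = j₀ then fderiv ℂ (cf a n n) x else 0 with hD
  have hDd : ∀ i (w : PE n), DifferentiableOn ℂ (fun x => D i x w) Ω := by
    intro i w
    simp only [hD]
    by_cases h2 : i ∈ Ee
    · simp only [if_pos h2]
      exact Pool.Agent.Helper540.differentiableOn_fderiv_apply hΩo (hφdiff i h2) w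
    · by_cases h3 : i = j₀
      · simp only [if_neg h2, if_pos h3]
        exact Pool.Agent.Helper540.differentiableOn_fderiv_apply hΩo
          (cf_diff a n n).differentiableOn w
      · simp only [if_neg h2, if_neg h3]
        exact differentiableOn_const 0
  obtain ⟨X, hXd, hXne, hXk⟩ := exists_field H.cross hΩo ⟨x₁, hx₁Ω⟩ D hDd
  have hX2 : ∀ x ∈ Ω, ∀ i ∈ Ee,
      fderiv ℂ (fun x : PE n => φ (x, (fx a n x)^[M] (x (some i)))) x (X x) = 0 := by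
    intro x hx i hi
    have := hXk x hx i
    simp only [hD, if_pos hi] at this
    exact this
  have hX3 : ∀ x ∈ Ω, fderiv ℂ (cf a n n) x (X x) = 0 := by
    intro x hx
    have := hXk x hx j₀
    simp only [hD, if_neg hj₀, if_true] at this
    exact this
  -- a coefficient which moves
  obtain ⟨x₃, hx₃, hXx₃, hx₃i⟩ := exists_good H.iden hΩo hXd hXne
  obtain ⟨j, hj⟩ : ∃ j : ℕ, fderiv ℂ (cf a n j) x₃ (X x₃) ≠ 0 := by
    by_contra hcon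
    push Not at hcon
    exact hXx₃ (H.ndeg n a x₃ (X x₃) hn ha hx₃i hcon)
  have hjn : j < n + 2 := by
    by_contra hcon
    apply hj
    have h1 : cf a n j = fun _ => 0 := by
      funext x
      exact coeff_eq_zero_of_natDegree_lt (by have := natDegree_fam_le a n x; omega)
    rw [h1]
    simp
  set f : PE n → ℂ := fun x => fderiv ℂ (cf a n j) x (X x) with hf
  have hfd : DifferentiableOn ℂ f Ω := speed_diff j hΩo hXd
  -- the starting point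
  obtain ⟨x₂, hx₂Ω, hx₂W, hfx₂⟩ : ∃ x₂ ∈ Ω, x₂ ∈ W ∧ f x₂ ≠ 0 := by
    by_contra hcon
    push Not at hcon
    have h2 : ∀ᶠ x in 𝓝 x₁, f x = 0 := by
      filter_upwards [hΩo.mem_nhds hx₁Ω, hWo.mem_nhds hx₁W] with x e2 e3
      exact hcon x e2 e3
    exact hj (H.iden (PE n) Ω f hΩo hΩc hfd x₁ hx₁Ω h2 x₃ hx₃)
  have hx₂O : x₂ ∈ O := hΩO hx₂Ω
  have hx₂B : x₂ ∈ ball (0 : PE n) B := hx₂O.1
  -- the critical points of `Ee` escape on Ω
  have hescE : ∀ x ∈ Ω, ∀ i ∈ Ee, Esc (fx a n x) (x (some i)) := by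
    intro x hx i hi
    exact esc_of_large hb (hΩO hx).1 (k := M) (by have := (hΩO hx).2.2 i hi; linarith)
  set F0 : Fin n → ℂ := fun i => φ (x₂, (fx a n x₂)^[M] (x₂ (some i))) with hF0
  have hF0n : ∀ i ∈ Ee, R₃ + C₁ < ‖F0 i‖ := by
    intro i hi
    have h1 := hWM x₂ hx₂W i hi
    have h2 := hb.φc x₂ hx₂B ((fx a n x₂)^[M] (x₂ (some i))) (by linarith)
    have h3 := norm_sub_norm_le ((fx a n x₂)^[M] (x₂ (some i)))
      (φ (x₂, (fx a n x₂)^[M] (x₂ (some i))))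
    rw [norm_sub_rev] at h3
    show R₃ + C₁ < ‖φ (x₂, (fx a n x₂)^[M] (x₂ (some i)))‖
    linarith
  obtain ⟨r₁, r₂, -, hKL⟩ := H.ko3 H.ko0 a n 1 B (1 / 2) (1 / 2) 1 ha hn one_pos hB0 (by norm_num)
    (by norm_num) one_pos
  have hr₁ := hKL.r1
  -- the leaf
  set L' : Set (PE n) := LL2 a n 1 M 0 ψ ∅ Ee id (fun _ => 0) F0 (fun _ => 0) x₁ n₀ (r₁ / 2) x₂
    with hL'
  obtain ⟨hL'c, hL'O⟩ := H.cptq H.ko0 H.ko1 H.ko2 H.ko3 H.nud a n 1 M 0 B R C₁ R₁ R₃ (1 / 2) (1 / 2)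
    r₁ r₂ ψ φ ∅ Ee id (fun _ => 0) F0 (fun _ => 0) x₁ x₂ n₀ (r₁ / 2) ha hn one_pos hb hKL (rfp n)
    (by simp) hF0n (fun x hx => hDB x hx) (by linarith)
  have hL'm : ∀ x : PE n, x ∈ L' ↔ Dl a n x₁ x ≤ n₀ ∧
      ∀ i ∈ Ee, (fx a n x)^[M] (x (some i)) = ψ (x, F0 i) := by
    intro x
    constructor
    · rintro ⟨h1, h2, -⟩
      exact ⟨h1, h2⟩
    · rintro ⟨h1, h2⟩
      exact ⟨h1, h2, by simp, by simp⟩
  set L : Set (PE n) := L' ∩ Ω with hL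
  have hLc : IsCompact L := by
    have h2 : L = L' \ (O \ Ω) := by
      ext x
      simp only [hL, mem_inter_iff, Set.mem_sdiff, not_and, not_not]
      constructor
      · rintro ⟨e1, e2⟩; exact ⟨e1, fun _ => e2⟩
      · rintro ⟨e1, e2⟩; exact ⟨e1, e2 (hL'O e1)⟩
    rw [h2]
    exact hL'c.diff (diff_open hOo x₁)
  have hx₂L : x₂ ∈ L := by
    refine ⟨(hL'm x₂).mpr ⟨(hG₁D x₂ hx₂W.1.1).le, fun i hi => ?_⟩, hx₂Ω⟩
    exact (hb.ψφ x₂ hx₂B _ (by have := hWM x₂ hx₂W i hi; linarith)).symm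
  -- the time `N`
  obtain ⟨N, hN⟩ := BE_lim hb hR₇.symm.le hx₂B hη₀0
  have hAN₂ : (volume (BE a n R₃ R₇ φ N x₂)).toReal ≤ a₀ := by
    have h1 := hN N le_rfl
    have h2 : (volume {z : ℂ | ¬ Esc (fx a n x₂) z}).toReal ≤ m₀ + η₀ :=
      ENNReal.toReal_le_of_le_ofReal (by positivity) (hWv x₂ hx₂W)
    rw [hη₀] at h1 h2
    linarith
  have hLO : L ⊆ O := fun x hx => hL'O hx.1
  have hlsc := H.lscp H.ko0 H.ko1 H.ko2 H.ko3 a n 1 M N B R C₁ R₁ R₃ R₇ (1 / 2) (1 / 2) r₁ r₂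
    (r₁ / 2) 1 ψ φ ∅ Ee id L ha hn one_pos hb hR₇.symm.le hKL (by linarith) (by linarith) one_pos hLO
    (by simp)
  simp only [BE_eq] at hlsc
  have hDl : ∀ x : PE n, ∑ j : Fin (n + 2), ‖cf a n j x - cf a n j x₁‖ ^ 2 = Dl a n x₁ x := by
    intro x
    rw [Dl_eq, Finset.sum_range]
  have hDl2 : ∀ x y : PE n, Dl a n x y = ∑ j : Fin (n + 2), ‖cf a n j y - cf a n j x‖ ^ 2 := by
    intro x y
    rw [Dl_eq, Finset.sum_range]
  refine H.mina (PE n) (Fin (n + 2)) (fun j => cf a n j) (fun j => cf a n j x₁)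
    (fun x => (volume (BE a n R₃ R₇ φ N x)).toReal) L f x₂ n₀ c₀
    (fun j => cf_diff a n j) (fun _ => ENNReal.toReal_nonneg) hn₀ hc₀ hLc
    (hfd.continuousOn.mono inter_subset_right) hlsc hx₂L hfx₂ hAN₂ ?_ ?_
  · show c₀ / 2 * ∑ j : Fin (n + 2), ‖cf a n j x₂ - cf a n j x₁‖ ^ 2 ≤ c₀ * n₀ / 16
    rw [hDl]
    exact (hx₂W.1.1 : c₀ / 2 * Dl a n x₁ x₂ < a₀).le
  · intro p hp hpf hpD hpA
    have hpD' : Dl a n x₁ p < n₀ := by rw [← hDl]; exact hpD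
    have hpΩ : p ∈ Ω := hp.2
    have hpO : p ∈ O := hΩO hpΩ
    have hpB : p ∈ ball (0 : PE n) B := hpO.1
    have hpbad : ∀ l, l ∉ Ee → ¬ Esc (fx a n p) (p (some l)) := by
      apply hmax p hpD' _ (hescE p hpΩ)
      calc volume {z : ℂ | ¬ Esc (fx a n p) z}
          ≤ volume (BE a n R₃ R₇ φ N p) := measure_mono (notEsc_sub hb hpB N)
        _ = ENNReal.ofReal (volume (BE a n R₃ R₇ φ N p)).toReal :=
          (ENNReal.ofReal_toReal (BE_fin hb hR₇.symm.le hpB N)).symm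
        _ < ENNReal.ofReal (c₀ * n₀) := (ENNReal.ofReal_lt_ofReal_iff (mul_pos hc₀ hn₀)).mpr hpA
    have hpe := ((hL'm p).mp hp.1).2
    -- the curve
    set Ω' : Set (PE n) := {x | x ∈ Ω ∧ f x ≠ 0} ∩ {x | Dl a n x₁ x < n₀} with hΩ'
    have hΩ'o : IsOpen Ω' :=
      (hfd.continuousOn.isOpen_inter_preimage hΩo isOpen_ne).inter
        (isOpen_lt (Dl_continuous a n x₁) continuous_const)
    have hpΩ' : p ∈ Ω' := ⟨⟨hpΩ, hpf⟩, hpD'⟩
    have hΩ'Ω : Ω' ⊆ Ω := fun x hx => hx.1.1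
    obtain ⟨ρ, hρ, hflow⟩ := H.flow (PE n) Ω' {p} X hΩ'o isCompact_singleton
      (singleton_subset_iff.mpr hpΩ') (hXd.mono hΩ'Ω)
    obtain ⟨γ, hγ0, hγ⟩ := hflow p rfl
    have h0 : (0 : ℂ) ∈ ball (0 : ℂ) ρ := mem_ball_self hρ
    have hγΩ : ∀ t ∈ ball (0 : ℂ) ρ, γ t ∈ Ω := fun t ht => hΩ'Ω (hγ t ht).1
    have hγB : ∀ t ∈ ball (0 : ℂ) ρ, γ t ∈ ball (0 : PE n) B := fun t ht => (hΩO (hγΩ t ht)).1
    have hGD : GDE a n M B R₃ ψ Ee F0 ρ γ :=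
      { hρ := hρ
        γd := fun t ht => (hγ t ht).2.differentiableAt.differentiableWithinAt
        γB := hγB
        F1 := fun i hi => by have := hF0n i hi; linarith
        esc := by
          intro t ht i hi
          have h1 := gdp_along hΩo (hφdiff i hi) (fun s hs => (hγ s hs).2) hγΩ
            (fun s hs => hX2 _ (hγΩ s hs) i hi) t ht
          have hE0 : R₃ < ‖(fx a n (γ 0))^[M] (γ 0 (some i))‖ := (hΩO (hγΩ 0 h0)).2.2 i hi
          have h4 : φ (γ 0, (fx a n (γ 0))^[M] (γ 0 (some i))) = F0 i := by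
            have e1 := hb.ψφ (γ 0) (hγB 0 h0) _ hE0
            have e2 : R₁ < ‖F0 i‖ := by have := hF0n i hi; linarith
            refine hb.ψi (γ 0) (hγB 0 h0) (φ_norm hb (hγB 0 h0) hE0) e2 ?_
            show ψ (γ 0, φ (γ 0, (fx a n (γ 0))^[M] (γ 0 (some i)))) = ψ (γ 0, F0 i)
            rw [e1, hγ0]
            exact hpe i hi
          have h5 := hb.ψφ (γ t) (hγB t ht) _ ((hΩO (hγΩ t ht)).2.2 i hi)
          rw [← h5]
          have h6 : φ (γ t, (fx a n (γ t))^[M] (γ t (some i))) = F0 i := by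
            rw [← h4]; exact h1
          rw [h6]
        cen := fun t ht => gdp_along isOpen_univ (cf_diff a n n).differentiableOn
          (fun s hs => (hγ s hs).2) (fun _ _ => mem_univ _) (fun s hs => hX3 _ (hγΩ s hs)) t ht
        bad := by rw [hγ0]; exact hpbad }
    obtain ⟨r₀, hr₀, hr₀ρ, hloc⟩ := loc H N ha hn hb hR₇.symm.le hGD hR₄ hR₅ hc₀ hv hgain
    have hsub : ∀ t ∈ ball (0 : ℂ) r₀, t ∈ ball (0 : ℂ) ρ := fun t ht => ball_subset_ball hr₀ρ ht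
    have hγd : DifferentiableOn ℂ γ (ball 0 r₀) := fun t ht =>
      (hγ t (hsub t ht)).2.differentiableAt.differentiableWithinAt
    refine ⟨r₀, γ, hr₀, hγ0, hγd, ?_, ?_, ⟨⟨j, hjn⟩, ?_⟩, ?_⟩
    · intro t ht
      have ht' := hsub t ht
      have e0 := (hγ t ht').1
      exact ⟨⟨(hL'm _).mpr ⟨(e0.2 : Dl a n x₁ (γ t) < n₀).le, fun i hi => hGD.esc t ht' i hi⟩,
        e0.1.1⟩, e0.1.2⟩
    · exact hfd.comp hγd (fun t ht => hγΩ t (hsub t ht))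
    · have e1 := (((cf_diff a n j) (γ 0)).hasFDerivAt.comp_hasDerivAt 0 (hγ 0 h0).2).deriv
      show deriv (fun t => cf a n j (γ t)) 0 ≠ 0
      have e2 : deriv (fun t => cf a n j (γ t)) 0 = fderiv ℂ (cf a n j) (γ 0) (X (γ 0)) := e1
      rw [e2, hγ0]
      exact hpf
    · intro r hr hrr η' hη' q hq
      obtain ⟨θ, hθ⟩ := hloc r hr hrr η' hη' q hq
      refine ⟨θ, ?_⟩
      simp only [hDl2] at hθ
      exact hθ

end Pool.Agent.X167.Sh
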